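import Pool.Agent.Lib.MP_d8f801_lc.SC.K.Defs

/-!
# SC/K: small sets and the normal ultrafilter (module K-Small)

Everything is standard: `#(Iio kk)` is regular, strong limit and uncountable (it contains the uncountable `Iio w1`).
* `sm_bdd`: if `A ⊆ Iio kk` is small and unbounded then `Iio kk ⊆ ⋃ a ∈ A, Iic a` is a union of less than `κ` sets of
  size less than `κ` (`kk_min`; `Iic a = insert a (Iio a)`), contradiction to regularity.
* `uf_all`: take an injection `f` of `I` into `Iio kk` (`#I < #(Iio kk)`), its range is bounded by some `β < kk` by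
  `sm_bdd`; apply `U_normal` to `P' i ν = ∀ j ∈ I, f j = i → P j ν` and `U_tail β`.
* `uf_press`: otherwise `∀ β < kk, ∀ᶠ ν, f ν ≠ β`, so `∀ᶠ ν, ∀ β < ν, f ν ≠ β` by normality.
* `uf_const`: otherwise for all `b ∈ A` `∀ᶠ ν, f ν ≠ b` (ultrafilter), so `∀ᶠ ν, ∀ b ∈ A, f ν ≠ b` by `uf_all`.
* `uf_inj`: if the second alternative fails then `∀ᶠ ν, ∃ ν' < ν, f ν' = f ν` (ultrafilter); choose `ν'` (`g ν`), `g` is
  regressive, so a.e. constant with value `β`, and then `f ν = f β` a.e.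
-/

set_option autoImplicit false

universe u

namespace Pool.MP_d8f801_lc.SC

open Cardinal Set Filter

variable {X : Type u} [Stg X] {α β : Type u}

private theorem ks_unc : ℵ₀ < #(Iio (kk : X)) := by
  have h1 : ℵ₀ < #(Iio (w1 : X)) := by
    rw [← not_le, Cardinal.le_aleph0_iff_set_countable]
    exact Stg.w1_unc
  exact h1.trans (Stg.kk_min w1 Stg.w1_lt)

theorem Sm.mono {A B : Set α} (h : Sm X B) (hAB : A ⊆ B) : Sm X A :=
  (mk_le_mk_of_subset hAB).trans_lt h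

theorem Sm.of_countable {A : Set α} (h : A.Countable) : Sm X A :=
  (Cardinal.le_aleph0_iff_set_countable.2 h).trans_lt ks_unc

theorem Sm.image {A : Set α} (h : Sm X A) (f : α → β) : Sm X (f '' A) :=
  mk_image_le.trans_lt h

theorem Sm.biUnion {I : Set α} (hI : Sm X I) {A : α → Set β} (hA : ∀ i ∈ I, Sm X (A i)) :
    Sm X (⋃ i ∈ I, A i) :=
  (card_biUnion_lt_iff_forall_of_isRegular Stg.reg hI).2 hA

theorem Sm.union {A B : Set α} (hA : Sm X A) (hB : Sm X B) : Sm X (A ∪ B) :=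
  (mk_union_le A B).trans_lt (add_lt_of_lt ks_unc.le hA hB)

theorem Sm.prod {A : Set α} {B : Set β} (hA : Sm X A) (hB : Sm X B) : Sm X (A ×ˢ B) := by
  unfold Sm
  rw [mk_setProd]
  exact mul_lt_of_lt ks_unc.le hA hB

theorem Sm.powerset {A : Set α} (hA : Sm X A) : Sm X (𝒫 A) := by
  unfold Sm
  rw [mk_powerset]
  exact Stg.strong.isStrongPrelimit hA

theorem Sm.lists {A : Set α} (hA : Sm X A) : Sm X {l : List α | ∀ x ∈ l, x ∈ A} := by
  unfold Sm
  rw [← range_list_map_coe]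
  exact (mk_range_le.trans (mk_list_le_max _)).trans_lt (max_lt ks_unc hA)

theorem sm_Iio {x : X} (h : x < kk) : Sm X (Iio x) := Stg.kk_min x h

theorem not_sm_Iio_kk : ¬ Sm X (Iio (kk : X)) := lt_irrefl _

theorem sm_bdd {A : Set X} (hA : Sm X A) (h : A ⊆ Iio kk) : ∃ β : X, β < kk ∧ ∀ x ∈ A, x < β := by
  by_contra hcon
  push Not at hcon
  refine not_sm_Iio_kk (X := X) (Sm.mono (Sm.biUnion hA (A := fun a => {a} ∪ Iio a) fun a ha => ?_) ?_)
  · exact Sm.union (Sm.of_countable (countable_singleton a)) (sm_Iio (h ha))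
  · intro b hb
    obtain ⟨a, ha, hba⟩ := hcon b hb
    refine mem_iUnion₂.2 ⟨a, ha, ?_⟩
    rcases hba.eq_or_lt with h1 | h1
    · exact Or.inl h1
    · exact Or.inr h1

theorem uf_all {I : Set α} (hI : Sm X I) {P : α → X → Prop} (h : ∀ i ∈ I, ∀ᶠ ν in Uf X, P i ν) :
    ∀ᶠ ν in Uf X, ∀ i ∈ I, P i ν := by
  have h0 : #I ≤ #(Iio (kk : X)) := le_of_lt hI
  obtain ⟨e⟩ := Cardinal.le_def _ _ |>.1 h0
  have hA : Sm X (range fun i : I => (e i : X)) := mk_range_le.trans_lt hI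
  obtain ⟨β, hβ, hb⟩ := sm_bdd hA (by rintro _ ⟨i, rfl⟩; exact (e i).2)
  have h1 := Stg.U_normal (fun x ν => ∀ j : I, (e j : X) = x → P j ν) (by
    intro x hx
    by_cases hj : ∃ j : I, (e j : X) = x
    · obtain ⟨j, rfl⟩ := hj
      filter_upwards [h j j.2] with ν hν j' hj'
      have : j' = j := e.injective (Subtype.ext hj')
      rw [this]
      exact hν
    · exact Filter.Eventually.of_forall fun ν j hjx => absurd ⟨j, hjx⟩ hj)
  filter_upwards [h1, Stg.U_tail β hβ] with ν h2 h3 i hi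
  exact h2 (e ⟨i, hi⟩) ((hb _ ⟨⟨i, hi⟩, rfl⟩).trans h3) ⟨i, hi⟩ rfl

theorem uf_kk : ∀ᶠ ν in Uf X, ν < kk := Stg.U_kk

theorem uf_not {P : X → Prop} (h : ¬ ∀ᶠ ν in Uf X, P ν) : ∀ᶠ ν in Uf X, ¬ P ν :=
  Ultrafilter.eventually_not.2 h

theorem uf_press {f : X → X} (h : ∀ᶠ ν in Uf X, f ν < ν) : ∃ β : X, β < kk ∧ ∀ᶠ ν in Uf X, f ν = β := by
  by_contra hcon
  push Not at hcon
  have h1 := Stg.U_normal (fun i ν => ¬ f ν = i) fun i hi => hcon i hi
  obtain ⟨ν, h2, h3⟩ := (h1.and h).exists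
  exact h2 (f ν) h3 rfl

theorem uf_const {A : Set α} (hA : Sm X A) {f : X → α} (h : ∀ᶠ ν in Uf X, f ν ∈ A) :
    ∃ b ∈ A, ∀ᶠ ν in Uf X, f ν = b := by
  by_contra hcon
  have h1 := uf_all hA (P := fun b ν => ¬ f ν = b) fun b hb => uf_not fun h => hcon ⟨b, hb, h⟩
  obtain ⟨ν, h2, h3⟩ := (h1.and h).exists
  exact h2 (f ν) h3 rfl

theorem uf_inj (f : X → X) : (∃ b, ∀ᶠ ν in Uf X, f ν = b) ∨
    ∀ᶠ ν in Uf X, ∀ ν' : X, ν' < ν → f ν' ≠ f ν := by
  classical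
  by_cases h : ∀ᶠ ν in Uf X, ∀ ν' : X, ν' < ν → f ν' ≠ f ν
  · exact Or.inr h
  · left
    have h1 := uf_not h
    have h2 : ∀ ν : X, ∃ g : X, (¬ ∀ ν' : X, ν' < ν → f ν' ≠ f ν) → g < ν ∧ f g = f ν := by
      intro ν
      by_cases h3 : ∀ ν' : X, ν' < ν → f ν' ≠ f ν
      · exact ⟨ν, fun h4 => absurd h3 h4⟩
      · have h5 := h3
        push Not at h5
        obtain ⟨g, hg, hf⟩ := h5
        exact ⟨g, fun _ => ⟨hg, hf⟩⟩
    choose g hg using h2
    have h3 : ∀ᶠ ν in Uf X, g ν < ν := h1.mono fun ν hν => (hg ν hν).1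
    obtain ⟨β, hβ, h4⟩ := uf_press h3
    refine ⟨f β, ?_⟩
    filter_upwards [h1, h4] with ν h5 h6
    rw [← (hg ν h5).2, h6]

/-- sets in the ultrafilter are unbounded in `κ` and uncountable below some `y < κ` -/
theorem uf_unc {P : X → Prop} (h : ∀ᶠ ν in Uf X, P ν) : ∃ y : X, y < kk ∧ ¬ ({ν | P ν} ∩ Iio y).Countable := by
  by_contra hcon
  push Not at hcon
  by_cases h1 : #(Iio (w1 : X)) ≤ #({ν : X | P ν} ∩ Iio kk : Set X)
  · obtain ⟨T, hT, hc⟩ := Cardinal.le_mk_iff_exists_subset.1 h1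
    have hT1 : Sm X T := by
      unfold Sm
      rw [hc]
      exact Stg.kk_min w1 Stg.w1_lt
    obtain ⟨β, hβ, hb⟩ := sm_bdd hT1 (hT.trans inter_subset_right)
    have hT3 : T ⊆ {ν : X | P ν} ∩ Iio β := fun x hx => ⟨(hT hx).1, hb x hx⟩
    have hT2 : T.Countable := (hcon β hβ).mono hT3
    rw [← Cardinal.le_aleph0_iff_set_countable, hc, Cardinal.le_aleph0_iff_set_countable] at hT2
    exact Stg.w1_unc hT2
  · push Not at h1
    have hS : Sm X ({ν : X | P ν} ∩ Iio kk) := h1.trans (Stg.kk_min w1 Stg.w1_lt)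
    obtain ⟨β, hβ, hb⟩ := sm_bdd hS inter_subset_right
    obtain ⟨ν, ⟨h2, h3⟩, h4⟩ := ((h.and uf_kk).and (Stg.U_tail β hβ)).exists
    have h5 : ν ∈ ({ν : X | P ν} ∩ Iio (kk : X) : Set X) := ⟨h2, h3⟩
    exact lt_asymm h4 (hb ν h5)

end Pool.MP_d8f801_lc.SC
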