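import Pool.Agent.Lib.MP_d8f801_lc.SC.K.Hul

/-!
# SC/K: the regions `Zr a` (module K-Lam)

* `sm_hul`: `hul a B` is the image of `a ×ˢ {l | entries in B}` (`Sm.prod`, `Sm.lists`, `Sm.image`).
* `bst_ev`: for `ζ ∈ a` and `l : List (Iio kk)` with `∀ᶠ μ, ev (l.foldl ev ζ) μ = ⊥` this set of `μ` belongs to the ultrafilter;
  for fixed `ζ`, `i < kk` the set of lists with entries `≤ i` is small (`Sm.lists`, `Iic i`), so by `uf_all`
  `P i ν := ∀ l, (∀ g ∈ l, g ≤ i) → (∀ᶠ μ, ..) → ev (l.foldl ev ζ) ν = ⊥` holds a.e. for every `i < kk`; normality; a nonempty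
  list with entries `< ν` has a maximal entry `i < ν`; the empty list is treated separately; `uf_all` over `ζ ∈ a`.
* `lam_spec`: `uf_unc` for `P ν := ν ∈ Bst a` gives `y < kk` such that `Bst a ∩ Iio y` is uncountable, so the set in the definition
  of `lam` is nonempty and its minimum is `≤ y`.
-/

set_option autoImplicit false

universe u

namespace Pool.MP_d8f801_lc.SC

open Cardinal Set Filter

variable {X : Type u} [Stg X]

theorem sm_hul {a B : Set X} (ha : a.Countable) (hB : Sm X B) : Sm X (hul a B) := by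
  have h1 : Sm X (a ×ˢ {l : List X | ∀ x ∈ l, x ∈ B}) := Sm.prod (Sm.of_countable ha) (Sm.lists hB)
  refine Sm.mono (Sm.image h1 (fun p : X × List X => p.2.foldl ev p.1)) ?_
  rintro x ⟨ζ, hζ, l, hl, rfl⟩
  exact ⟨(ζ, l), ⟨hζ, hl⟩, rfl⟩

private theorem lam_aux_ev (ξ : X) : ∀ᶠ ν in Uf X, (∀ᶠ μ in Uf X, ev ξ μ = ⊥) → ev ξ ν = ⊥ := by
  by_cases h : ∀ᶠ μ in Uf X, ev ξ μ = ⊥
  · filter_upwards [h] with ν hν _
    exact hν
  · exact Eventually.of_forall fun ν h' => absurd h' h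

private theorem lam_aux_max (l : List X) (hl : l ≠ []) : ∃ i ∈ l, ∀ g ∈ l, g ≤ i := by
  classical
  obtain ⟨i, hi, h⟩ := l.toFinset.exists_max_image id (by
    obtain ⟨x, hx⟩ := List.exists_mem_of_ne_nil l hl
    exact ⟨x, List.mem_toFinset.2 hx⟩)
  exact ⟨i, List.mem_toFinset.1 hi, fun g hg => h g (List.mem_toFinset.2 hg)⟩

theorem bst_ev {a : Set X} (ha : a.Countable) : ∀ᶠ ν in Uf X, ν ∈ Bst a := by
  have key : ∀ ζ ∈ a, ∀ᶠ ν in Uf X, ∀ l : List X, (∀ g ∈ l, g < ν) →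
      (∀ᶠ μ in Uf X, ev (l.foldl ev ζ) μ = ⊥) → ev (l.foldl ev ζ) ν = ⊥ := by
    intro ζ _
    have h1 : ∀ i : X, i < kk → ∀ᶠ ν in Uf X, ∀ l : List X, (∀ g ∈ l, g ≤ i) →
        (∀ᶠ μ in Uf X, ev (l.foldl ev ζ) μ = ⊥) → ev (l.foldl ev ζ) ν = ⊥ := by
      intro i hi
      have hIic : Sm X (Iic i) := by
        refine Sm.mono (Sm.union (Sm.of_countable (countable_singleton i)) (sm_Iio hi)) ?_
        intro x hx
        rcases eq_or_lt_of_le (show x ≤ i from hx) with h | h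
        · exact Or.inl h
        · exact Or.inr h
      exact uf_all (Sm.lists hIic) (P := fun (l : List X) ν =>
        (∀ᶠ μ in Uf X, ev (l.foldl ev ζ) μ = ⊥) → ev (l.foldl ev ζ) ν = ⊥)
        (fun l _ => lam_aux_ev _)
    have h2 := Stg.U_normal _ h1
    filter_upwards [h2, lam_aux_ev ζ] with ν hν hν0 l hl hev
    by_cases hnil : l = []
    · subst hnil
      exact hν0 hev
    · obtain ⟨i, hi, hmax⟩ := lam_aux_max l hnil
      exact hν i (hl i hi) l hmax hev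
  filter_upwards [uf_kk, uf_all (Sm.of_countable ha) key] with ν h1 h2
  exact ⟨h1, h2⟩

theorem lam_spec {a : Set X} (ha : a.Countable) : lam a < kk ∧ ¬ (Bst a ∩ Iio (lam a)).Countable ∧
    ∀ d, d < lam a → (Bst a ∩ Iio d).Countable := by
  obtain ⟨y, hy, hyc⟩ := uf_unc (bst_ev ha)
  have hne : {y : X | ¬ (Bst a ∩ Iio y).Countable}.Nonempty := ⟨y, hyc⟩
  have hlam : lam a = Stg.wfl.min _ hne := by
    unfold lam
    rw [dif_pos hne]
  refine ⟨?_, ?_, ?_⟩
  · refine lt_of_le_of_lt ?_ hy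
    rw [hlam]
    exact not_lt.1 (Stg.wfl.not_lt_min _ (show y ∈ {y : X | ¬ (Bst a ∩ Iio y).Countable} from hyc))
  · rw [hlam]
    exact Stg.wfl.min_mem _ hne
  · intro d hd
    by_contra hc
    rw [hlam] at hd
    exact Stg.wfl.not_lt_min _ (show d ∈ {y : X | ¬ (Bst a ∩ Iio y).Countable} from hc) hd

theorem sm_Zr {a : Set X} (ha : a.Countable) : Sm X (Zr a) :=
  sm_hul ha (sm_Iio (lam_spec ha).1)

theorem sub_Zr (a : Set X) : a ⊆ Zr a := sub_hul _ _

/-- above every countable subset of `lam a` there are uncountably many strong indiscernibles below `lam a` (for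
`d ∈ D` the set `Bst a ∩ Iic d` is countable by `lam_spec`) -/
theorem lam_cof {a : Set X} (ha : a.Countable) {D : Set X} (hD : D.Countable) (h : ∀ d ∈ D, d < lam a) :
    ¬ {γ | γ ∈ Bst a ∧ γ < lam a ∧ ∀ d ∈ D, d < γ}.Countable := by
  intro hc
  obtain ⟨-, h2, h3⟩ := lam_spec ha
  apply h2
  have h4 : (⋃ d ∈ D, ({d} ∪ (Bst a ∩ Iio d))).Countable :=
    hD.biUnion fun d hd => (countable_singleton d).union (h3 d (h d hd))
  refine (hc.union h4).mono ?_
  rintro γ ⟨hγ, hγl⟩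
  by_cases hall : ∀ d ∈ D, d < γ
  · exact Or.inl ⟨hγ, hγl, hall⟩
  · push Not at hall
    obtain ⟨d, hd, hle⟩ := hall
    refine Or.inr (mem_iUnion₂.2 ⟨d, hd, ?_⟩)
    rcases eq_or_lt_of_le hle with h | h
    · exact Or.inl h
    · exact Or.inr ⟨hγ, h⟩

end Pool.MP_d8f801_lc.SC
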