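import Pool.Agent.Lib.MP_d8f801_lc.SC.K.Lam

/-!
# SC/K: indiscernibles below `lam a` for `N ⊆ Zr a` (module K-ZrInd)

Proof. For `ξ ∈ N` choose `ζ ∈ a` and a list `l ξ` with entries `< lam a` and `ξ = (l ξ).foldl ev ζ`; `D` = the set of all entries of
all `l ξ`, `ξ ∈ N` (countable). Let `γ ∈ Bst a`, `γ < lam a`, `γ` above `D`. `Ind N γ`: `γ < kk`, and for `ξ ∈ N` with
`∀ᶠ ν, ev ξ ν = ⊥` the definition of `Bst` (with `ζ`, `l ξ`) gives `ev ξ γ = ⊥`. `nx N γ ⊆ Zr a`: `nx_sub_hul` (`γ ∈ Iio (lam a)`).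
For `x = ev ξ γ < kk`: by `lam_cof` there is `γ' ∈ Bst a` with `γ < γ' < lam a` and `γ'` above `D`, so `Ind N γ'`. The set of `ν`
with `∀ ν' < ν, ev ξ ν' < kk → ev ξ ν' < ν` belongs to the ultrafilter (normality with `P i ν := ev ξ i < kk → ev ξ i < ν`, `U_tail`),
and `N` contains (club, `club_fn`) a code `ξ'` of a function which is `⊥` exactly at these `ν`; so `ev ξ' γ' = ⊥`, i.e. `ev ξ γ < γ'`.
-/

set_option autoImplicit false

universe u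

namespace Pool.MP_d8f801_lc.SC

open Cardinal Set Filter

variable {X : Type u} [Stg X]

private theorem zrInd_closed (ξ : X) :
    ∀ᶠ ν in Uf X, ∀ ν' : X, ν' < ν → ev ξ ν' < kk → ev ξ ν' < ν := by
  refine Stg.U_normal (fun i ν => ev ξ i < kk → ev ξ i < ν) fun i _ => ?_
  by_cases h : ev ξ i < kk
  · filter_upwards [Stg.U_tail (ev ξ i) h] with ν hν _
    exact hν
  · exact Eventually.of_forall fun ν h' => absurd h' h

private theorem zrInd_w1_ne : (w1 : X) ≠ ⊥ := by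
  intro h
  apply Stg.w1_unc (X := X)
  have h1 : Set.Iio (w1 : X) = ∅ := by
    rw [h]
    ext x
    simp
  rw [h1]
  exact countable_empty

theorem zr_ind : ∀ᶠ N in club X, ∀ a : Set X, a.Countable → N ⊆ Zr a →
    ∃ D : Set X, D.Countable ∧ (∀ d ∈ D, d < lam a) ∧ ∀ γ ∈ Bst a, γ < lam a → (∀ d ∈ D, d < γ) →
      Ind N γ ∧ (∀ x ∈ nx N γ, x < kk → x < lam a) ∧ nx N γ ⊆ Zr a := by
  classical
  choose code hcode using fun ξ : X => Stg.ev_surj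
    (fun ν : X => if ∀ ν' : X, ν' < ν → ev ξ ν' < kk → ev ξ ν' < ν then (⊥ : X) else w1)
  filter_upwards [club_ctbl, club_fn code] with N hN hNcode a ha hNa
  have h1 : ∀ ξ : N, ∃ ζ ∈ a, ∃ l : List X, (∀ g ∈ l, g ∈ Iio (lam a)) ∧ l.foldl ev ζ = (ξ : X) :=
    fun ξ => hNa ξ.2
  choose ζ hζ l hl hl2 using h1
  have : Countable N := hN.to_subtype
  have key : ∀ γ ∈ Bst a, (∀ d ∈ ⋃ ξ : N, {d | d ∈ l ξ}, d < γ) → Ind N γ := by
    intro γ hγ hD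
    refine ⟨hγ.1, fun ξ hξ h => ?_⟩
    have h2 := hγ.2 (ζ ⟨ξ, hξ⟩) (hζ ⟨ξ, hξ⟩) (l ⟨ξ, hξ⟩)
      (fun g hg => hD g (mem_iUnion.2 ⟨⟨ξ, hξ⟩, hg⟩))
    rw [hl2 ⟨ξ, hξ⟩] at h2
    exact h2 h
  have hDc : (⋃ ξ : N, {d | d ∈ l ξ}).Countable :=
    countable_iUnion fun ξ => (List.finite_toSet (l ξ)).countable
  have hDl : ∀ d ∈ ⋃ ξ : N, {d | d ∈ l ξ}, d < lam a := by
    intro d hd
    obtain ⟨ξ, hξ⟩ := mem_iUnion.1 hd
    exact hl ξ d hξ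
  refine ⟨_, hDc, hDl, fun γ hγ hγl hD => ⟨key γ hγ hD, ?_, nx_sub_hul hNa hγl⟩⟩
  rintro x ⟨ξ, hξ, rfl⟩ hx
  have h3 := lam_cof ha (D := insert γ (⋃ ξ : N, {d | d ∈ l ξ})) (hDc.insert γ) (by
    intro d hd
    rcases hd with rfl | hd
    · exact hγl
    · exact hDl d hd)
  have h4 : {γ' | γ' ∈ Bst a ∧ γ' < lam a ∧ ∀ d ∈ insert γ (⋃ ξ : N, {d | d ∈ l ξ}), d < γ'}.Nonempty := by
    by_contra hne
    rw [not_nonempty_iff_eq_empty] at hne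
    exact h3 (hne ▸ countable_empty)
  obtain ⟨γ', h5, h6, h7⟩ := h4
  have h8 := key γ' h5 fun d hd => h7 d (mem_insert_of_mem _ hd)
  have h9 : ev (code ξ) γ' = ⊥ := by
    refine h8.2 (code ξ) (hNcode ξ hξ) ?_
    filter_upwards [zrInd_closed ξ, Stg.U_kk (X := X)] with ν h10 h11
    rw [hcode ξ ν h11, if_pos h10]
  rw [hcode ξ γ' h8.1] at h9
  have h10 : ∀ ν' : X, ν' < γ' → ev ξ ν' < kk → ev ξ ν' < γ' := by
    by_contra hcon
    rw [if_neg hcon] at h9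
    exact zrInd_w1_ne h9
  exact (h10 γ (h7 γ (mem_insert _ _)) hx).trans h6

end Pool.MP_d8f801_lc.SC
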