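import Pool.Agent.Lib.MP_d8f801_lc.SC.K.Hul

/-!
# SC/K: transfer of closure to hulls (module K-Trans)

Proof. For `n : ℕ` every function `g : List X → X` on lists of length `n` with entries `< kk` has an iterated code:
`∃ ζ, ∀ l, l.length = n → (∀ g ∈ l, g < kk) → l.foldl ev ζ = g l` (induction on `n`: `n = 0` is `ζ = g []`; for `n + 1` take for
every `γ` an iterated code `ζ γ` of `l ↦ g (γ :: l)` and then a code of `γ ↦ ζ γ`). For `z1 z2 : X`, `n1 n2 : ℕ` let
`c z1 z2 n1 n2` be an iterated code (length `n1 + n2`) of `l ↦ W ((l.take n1).foldl ev z1) ((l.drop n1).foldl ev z2)`. `N` closed under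
all `c · · n1 n2` (`club_fn2`, `club_all` over `n1 n2 : ℕ`). If `a ⊆ N ⊆ hul a B`, `x = l1.foldl ev z1`, `y = l2.foldl ev z2` then
`W x y = (l1 ++ l2).foldl ev (c z1 z2 l1.length l2.length)` and `c .. ∈ N ⊆ hul a B`, so `W x y ∈ hul (hul a B) B ⊆ hul a B`
(`hul_hul`).
-/

set_option autoImplicit false

universe u

namespace Pool.MP_d8f801_lc.SC

open Cardinal Set Filter

variable {X : Type u} [Stg X]

private theorem trans_code (n : ℕ) : ∀ g : List X → X, ∃ ζ : X, ∀ l : List X, l.length = n →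
    (∀ x ∈ l, x < (kk : X)) → l.foldl ev ζ = g l := by
  induction n with
  | zero =>
    intro g
    refine ⟨g [], fun l hl _ => ?_⟩
    rw [List.length_eq_zero_iff] at hl
    rw [hl]
    rfl
  | succ n ih =>
    intro g
    choose ζ hζ using fun γ : X => ih fun l => g (γ :: l)
    obtain ⟨ξ, hξ⟩ := Stg.ev_surj ζ
    refine ⟨ξ, fun l hl hk => ?_⟩
    cases l with
    | nil => simp at hl
    | cons γ l =>
      have h1 : ev ξ γ = ζ γ := hξ γ (hk γ List.mem_cons_self)
      rw [List.foldl_cons, h1]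
      exact hζ γ l (by simpa using hl) fun x hx => hk x (List.mem_cons_of_mem _ hx)

theorem hul_transfer2 (W : X → X → X) : ∀ᶠ N in club X, ∀ a B : Set X, a ⊆ N → B ⊆ Iio kk → N ⊆ hul a B →
    ∀ x ∈ hul a B, ∀ y ∈ hul a B, W x y ∈ hul a B := by
  have h0 : ∀ (n1 n2 : ℕ) (z1 z2 : X), ∃ ζ : X, ∀ l : List X, l.length = n1 + n2 →
      (∀ x ∈ l, x < (kk : X)) →
      l.foldl ev ζ = W ((l.take n1).foldl ev z1) ((l.drop n1).foldl ev z2) :=
    fun n1 n2 z1 z2 => trans_code (n1 + n2) fun l =>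
      W ((l.take n1).foldl ev z1) ((l.drop n1).foldl ev z2)
  choose c hc using h0
  filter_upwards [club_all fun n1 : ℕ => club_all fun n2 : ℕ => club_fn2 (c n1 n2)] with N hN
  intro a B ha hB hNh x hx y hy
  obtain ⟨z1, hz1, l1, hl1, rfl⟩ := hx
  obtain ⟨z2, hz2, l2, hl2, rfl⟩ := hy
  have h1 := hc l1.length l2.length z1 z2 (l1 ++ l2) (by rw [List.length_append]) (by
    intro x hx
    rcases List.mem_append.1 hx with hx | hx
    · exact hB (hl1 x hx)
    · exact hB (hl2 x hx))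
  rw [List.take_left, List.drop_left] at h1
  rw [← h1]
  refine hul_hul ⟨c l1.length l2.length z1 z2, hNh (hN _ _ _ (ha hz1) _ (ha hz2)), l1 ++ l2, ?_, rfl⟩
  intro x hx
  rcases List.mem_append.1 hx with hx | hx
  · exact hl1 x hx
  · exact hl2 x hx

theorem hul_transfer (W : X → X) : ∀ᶠ N in club X, ∀ a B : Set X, a ⊆ N → B ⊆ Iio kk → N ⊆ hul a B →
    ∀ x ∈ hul a B, W x ∈ hul a B := by
  filter_upwards [hul_transfer2 fun x _ : X => W x] with N hN a B h1 h2 h3 x hx
  exact hN a B h1 h2 h3 x hx x hx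

end Pool.MP_d8f801_lc.SC
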