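import Pool.Agent.Lib.MP_d8f801_lc.SC.K.Los

/-!
# SC/K: `N[γ]` below `γ`, injectivity, countable ordinals (module K-Nx)

* `ind_ev`: `N` countable, so `uf_all` over `N` (`Sm.of_countable`) and `uf_kk`.
* `nx_below`: (1) for `x ∈ N`, `x < kk`: `x < γ`: `∀ᶠ ν, x < ν` (`U_tail`); apply `los1` with `R ν y := y < ν` to a code in `N`
  of the constant function `x` (`club_fn`: `x ↦ code of the constant x`). (2) for `ev ξ γ < γ` (`ξ ∈ N`): by `los1` `ev ξ ν < ν`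
  a.e., so by `uf_press` a.e. `ev ξ ν = β`, `β < kk`; `N` is closed under `ξ ↦ β` (`club_fn` with a chosen `β`) and by `los2`
  (`R ν y z := y = z`, `z` = code of the constant `β`) `ev ξ γ = β ∈ N`.
* `nx_inj`: `uf_inj (ev ξ ·)`. If it is a.e. constant with value `b` then `b ∈ N` (closure) and `ev ξ γ = b` (`los`), so `x = b ∈ N`,
  contradiction. Otherwise by `los1` (use `los` with the relation `R γ l := ∀ ν' < γ, ev ξ ν' ≠ ev ξ γ`; to be precise: for fixed `ξ`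
  take in `N` a code of the function which is `⊥` exactly if `∀ ν' < ν, ev ξ ν' ≠ ev ξ ν`, use `club_fn` and the definition of
  `Ind`): `∀ ν' < γ, ev ξ ν' ≠ ev ξ γ`, and the same for `γ'`; so `γ = γ'` by trichotomy.
* `tr1_club`: for `i < w1` the set `Iio i` is countable: `club_set` gives `N` with `i ∈ N, i < w1 → Iio i ⊆ N`; so `i < dl N`
  (otherwise `dl N < i` would belong to `N`, or `dl N = i ∈ N`; `dl N ∉ N` because `N` is countable and `X` is not).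
* `dl_spec`: `{i | i ∉ a}` is nonempty; `Iio (dl a) ⊆ a` by minimality, so `dl a < w1` since `Iio w1` is not countable.
-/

set_option autoImplicit false

universe u

namespace Pool.MP_d8f801_lc.SC

open Cardinal Set Filter

variable {X : Type u} [Stg X]

theorem ind_ev {N : Set X} (h : N.Countable) : ∀ᶠ γ in Uf X, Ind N γ := by
  have h1 : ∀ᶠ γ in Uf X, ∀ ξ ∈ N, (∀ᶠ ν in Uf X, ev ξ ν = ⊥) → ev ξ γ = ⊥ := by
    refine uf_all (Sm.of_countable h) fun ξ _ => ?_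
    by_cases hξ : ∀ᶠ ν in Uf X, ev ξ ν = ⊥
    · filter_upwards [hξ] with γ hγ _
      exact hγ
    · exact Eventually.of_forall fun γ h' => absurd h' hξ
  filter_upwards [h1, uf_kk] with γ h2 h3
  exact ⟨h3, h2⟩

/-- a function coded in `N` which is constant almost everywhere takes at `γ` its value, which is in `N` -/
private theorem nx_const : ∀ᶠ N in club X, ∀ γ, Ind N γ → ∀ ξ ∈ N, (∃ b, ∀ᶠ ν in Uf X, ev ξ ν = b) →
    ev ξ γ ∈ N := by
  filter_upwards [los_fix2 (X := X) fun ξ η ν => ev ξ ν = η,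
    club_choice (Y := X) fun ξ b => ∀ᶠ ν in Uf X, ev ξ ν = b] with N h1 h2 γ hγ ξ hξ hb
  obtain ⟨b, hbN, hb⟩ := h2 ξ hξ hb
  rw [(h1 γ hγ ξ hξ b hbN).2 hb]
  exact hbN

theorem nx_below : ∀ᶠ N in club X, ∀ γ, Ind N γ → (∀ x ∈ N, x < kk → x < γ) ∧ ∀ x ∈ nx N γ, x < γ → x ∈ N := by
  filter_upwards [los_fix1 (X := X) fun ξ ν => ξ < ν, los_fix1 (X := X) fun ξ ν => ev ξ ν < ν,
    nx_const (X := X)] with N h1 h2 h3 γ hγ
  refine ⟨fun x hx hxk => (h1 γ hγ x hx).2 (Stg.U_tail x hxk), ?_⟩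
  rintro x ⟨ξ, hξ, rfl⟩ hlt
  obtain ⟨β, _, hβ⟩ := uf_press ((h2 γ hγ ξ hξ).1 hlt)
  exact h3 γ hγ ξ hξ ⟨β, hβ⟩

theorem nx_inj : ∀ᶠ N in club X, ∀ ξ ∈ N, ∀ x, x ∉ N → ∀ γ γ' : X, Ind N γ → Ind N γ' →
    ev ξ γ = x → ev ξ γ' = x → γ = γ' := by
  filter_upwards [los_fix1 (X := X) fun ξ ν => ∀ ν' : X, ν' < ν → ev ξ ν' ≠ ev ξ ν,
    nx_const (X := X)] with N h1 h2 ξ hξ x hx γ γ' hγ hγ' he he'
  rcases uf_inj (X := X) (ev ξ) with h | h
  · exact absurd (he ▸ h2 γ hγ ξ hξ h) hx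
  · have h3 := (h1 γ hγ ξ hξ).2 h
    have h4 := (h1 γ' hγ' ξ hξ).2 h
    rcases lt_trichotomy γ γ' with hlt | heq | hlt
    · exact absurd (he.trans he'.symm) (h4 γ hlt)
    · exact heq
    · exact absurd (he'.trans he.symm) (h3 γ' hlt)

theorem dl_spec {a : Set X} (h : a.Countable) : dl a ∉ a ∧ dl a < w1 ∧ ∀ i, i < dl a → i ∈ a := by
  classical
  have h1 : ∃ i : X, i < w1 ∧ i ∉ a := by
    by_contra hc
    push Not at hc
    exact Stg.w1_unc (X := X) (h.mono fun i hi => hc i hi)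
  obtain ⟨i, hi, hia⟩ := h1
  have hne : {i : X | i ∉ a}.Nonempty := ⟨i, hia⟩
  have hdl : dl a = Stg.wfl.min _ hne := by
    rw [dl, dif_pos hne]
  have hmem : dl a ∈ {i : X | i ∉ a} := by
    rw [hdl]
    exact Stg.wfl.min_mem _ hne
  have hmin : ∀ j : X, j ∉ a → ¬ j < dl a := by
    intro j hj
    rw [hdl]
    exact Stg.wfl.not_lt_min _ hj
  refine ⟨hmem, lt_of_le_of_lt (not_lt.1 (hmin i hia)) hi, fun j hj => ?_⟩
  by_contra hc
  exact hmin j hc hj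

theorem tr1_iff {a : Set X} (h : a.Countable) (ht : Tr1 a) {i : X} (hi : i < w1) : i ∈ a ↔ i < dl a :=
  ⟨fun hia => ht i hia hi, fun hlt => (dl_spec h).2.2 i hlt⟩

theorem tr1_club : ∀ᶠ N in club X, Tr1 N := by
  classical
  have h1 := club_set (Y := X) (fun y => if y < w1 then Iio y else ∅) (by
    intro y
    by_cases hy : y < w1
    · simp only [hy, if_true]
      exact Stg.w1_min y hy
    · simp only [hy, if_false]
      exact countable_empty)
  filter_upwards [h1, club_ctbl] with N h2 h3 i hi hiw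
  have h4 := h2 i hi
  simp only [hiw, if_true] at h4
  obtain ⟨h5, _, _⟩ := dl_spec h3
  by_contra hc
  rcases eq_or_lt_of_le (not_lt.1 hc) with h6 | h6
  · exact h5 (h6 ▸ hi)
  · exact h5 (h4 h6)

/-- `N[γ]` and `N` have the same countable ordinals -/
theorem nx_dl : ∀ᶠ N in club X, ∀ γ, Ind N γ → dl (nx N γ) = dl N ∧ Tr1 (nx N γ) ∧
    ∀ i : X, i < w1 → (i ∈ nx N γ ↔ i ∈ N) := by
  filter_upwards [los_fix1 (X := X) fun ξ ν => ev ξ ν < w1, nx_const (X := X), nx_sub (X := X),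
    nx_lift (tr1_club (X := X)), club_ctbl] with N h1 h2 h3 h4 h5 γ hγ
  have key : ∀ i : X, i < w1 → (i ∈ nx N γ ↔ i ∈ N) := by
    intro i hi
    constructor
    · rintro ⟨ξ, hξ, rfl⟩
      obtain ⟨b, _, hb⟩ := uf_const (sm_Iio Stg.w1_lt) ((h1 γ hγ ξ hξ).1 hi)
      exact h2 γ hγ ξ hξ ⟨b, hb⟩
    · exact fun hi' => (h3 γ hγ.1).1 hi'
  obtain ⟨a1, a2, a3⟩ := dl_spec (nx_ctbl h5 γ)
  obtain ⟨b1, b2, b3⟩ := dl_spec h5
  refine ⟨le_antisymm ?_ ?_, h4 γ hγ.1, key⟩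
  · by_contra hc
    exact b1 ((key _ b2).1 (a3 _ (not_le.1 hc)))
  · by_contra hc
    exact a1 ((key _ a2).2 (b3 _ (not_le.1 hc)))

end Pool.MP_d8f801_lc.SC
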