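import Pool.Agent.Lib.MP_d8f801_lc.SC.K.Defs

/-! # SC/K: the club filter (proved) -/

set_option autoImplicit false

namespace Pool.MP_d8f801_lc.SC

open Set Filter

variable {Y : Type*}

theorem club_iff {φ : Set Y → Prop} : (∀ᶠ N in club Y, φ N) ↔
    ∃ F : List Y → Set Y, (∀ l, (F l).Countable) ∧ ∀ N : Set Y, N.Countable → Clo F N → φ N :=
  Iff.rfl

theorem club_of (F : List Y → Set Y) (hF : ∀ l, (F l).Countable) :
    ∀ᶠ N in club Y, N.Countable ∧ Clo F N :=
  ⟨F, hF, fun _ h1 h2 => ⟨h1, h2⟩⟩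

theorem club_ctbl : ∀ᶠ N in club Y, N.Countable :=
  ⟨fun _ => ∅, fun _ => countable_empty, fun _ h _ => h⟩

theorem club_all {ι : Sort*} [Countable ι] {φ : ι → Set Y → Prop} (h : ∀ i, ∀ᶠ N in club Y, φ i N) :
    ∀ᶠ N in club Y, ∀ i, φ i N := by
  choose F hF hF2 using fun i => club_iff.1 (h i)
  refine ⟨fun l => ⋃ i, F i l, fun l => countable_iUnion fun i => hF i l, fun N hN hc i =>
    hF2 i N hN fun l hl => ?_⟩
  exact (subset_iUnion (fun i => F i l) i).trans (hc l hl)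

theorem club_diagL {φ : List Y → Set Y → Prop} (h : ∀ l, ∀ᶠ N in club Y, φ l N) :
    ∀ᶠ N in club Y, ∀ l : List Y, (∀ x ∈ l, x ∈ N) → φ l N := by
  choose F hF hF2 using fun l => club_iff.1 (h l)
  refine ⟨fun l => ⋃ n : ℕ, F (l.take n) (l.drop n), fun l => countable_iUnion fun n => hF _ _,
    fun N hN hc l hl => hF2 l N hN fun l' hl' => ?_⟩
  have h1 := hc (l ++ l') (by
    intro x hx
    rcases List.mem_append.1 hx with hx | hx
    · exact hl x hx
    · exact hl' x hx)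
  have h2 : F l l' ⊆ ⋃ n : ℕ, F ((l ++ l').take n) ((l ++ l').drop n) := by
    refine subset_iUnion_of_subset l.length ?_
    rw [List.take_left, List.drop_left]
  exact h2.trans h1

theorem club_diag {φ : Y → Set Y → Prop} (h : ∀ y, ∀ᶠ N in club Y, φ y N) :
    ∀ᶠ N in club Y, ∀ y ∈ N, φ y N := by
  have h1 := club_diagL (Y := Y) (φ := fun l N => ∀ y, l = [y] → φ y N) (fun l => by
    by_cases hl : ∃ y, l = [y]
    · obtain ⟨y, rfl⟩ := hl
      filter_upwards [h y] with N hN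
      rintro y' hy'
      simp only [List.cons.injEq, and_true] at hy'
      subst hy'
      exact hN
    · refine Eventually.of_forall fun N y hy => absurd ⟨y, hy⟩ hl)
  filter_upwards [h1] with N hN y hy
  exact hN [y] (by simpa using hy) y rfl

theorem club_diag2 {φ : Y → Y → Set Y → Prop} (h : ∀ y z, ∀ᶠ N in club Y, φ y z N) :
    ∀ᶠ N in club Y, ∀ y ∈ N, ∀ z ∈ N, φ y z N :=
  club_diag fun y => club_diag fun z => h y z

theorem club_diag3 {φ : Y → Y → Y → Set Y → Prop} (h : ∀ y z w, ∀ᶠ N in club Y, φ y z w N) :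
    ∀ᶠ N in club Y, ∀ y ∈ N, ∀ z ∈ N, ∀ w ∈ N, φ y z w N :=
  club_diag fun y => club_diag2 fun z w => h y z w

theorem club_sub {A : Set Y} (hA : A.Countable) : ∀ᶠ N in club Y, A ⊆ N :=
  ⟨fun _ => A, fun _ => hA, fun _ _ hc => hc [] (by simp)⟩

theorem club_mem (y : Y) : ∀ᶠ N in club Y, y ∈ N := by
  filter_upwards [club_sub (countable_singleton y)] with N hN
  exact hN rfl

theorem club_fnL (f : List Y → Y) : ∀ᶠ N in club Y, ∀ l : List Y, (∀ x ∈ l, x ∈ N) → f l ∈ N :=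
  club_diagL fun l => club_mem (f l)

theorem club_fn (f : Y → Y) : ∀ᶠ N in club Y, ∀ y ∈ N, f y ∈ N := club_diag fun y => club_mem (f y)

theorem club_fn2 (f : Y → Y → Y) : ∀ᶠ N in club Y, ∀ y ∈ N, ∀ z ∈ N, f y z ∈ N :=
  club_diag2 fun y z => club_mem (f y z)

theorem club_fn3 (f : Y → Y → Y → Y) : ∀ᶠ N in club Y, ∀ y ∈ N, ∀ z ∈ N, ∀ w ∈ N, f y z w ∈ N :=
  club_diag3 fun y z w => club_mem (f y z w)

theorem club_set (f : Y → Set Y) (hf : ∀ y, (f y).Countable) : ∀ᶠ N in club Y, ∀ y ∈ N, f y ⊆ N :=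
  club_diag fun y => club_sub (hf y)

theorem club_choice (R : Y → Y → Prop) :
    ∀ᶠ N in club Y, ∀ y ∈ N, (∃ z, R y z) → ∃ z ∈ N, R y z := by
  refine club_diag fun y => ?_
  by_cases h : ∃ z, R y z
  · obtain ⟨z, hz⟩ := h
    filter_upwards [club_mem z] with N hN _
    exact ⟨z, hN, hz⟩
  · exact Eventually.of_forall fun N h' => absurd h' h

theorem club_choice2 (R : Y → Y → Y → Prop) :
    ∀ᶠ N in club Y, ∀ x ∈ N, ∀ y ∈ N, (∃ z, R x y z) → ∃ z ∈ N, R x y z :=
  club_diag fun x => club_choice (R x)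

theorem club_choice3 (R : Y → Y → Y → Y → Prop) :
    ∀ᶠ N in club Y, ∀ x ∈ N, ∀ y ∈ N, ∀ w ∈ N, (∃ z, R x y w z) → ∃ z ∈ N, R x y w z :=
  club_diag fun x => club_choice2 (R x)

theorem club_choiceL (R : List Y → Y → Prop) :
    ∀ᶠ N in club Y, ∀ l : List Y, (∀ x ∈ l, x ∈ N) → (∃ z, R l z) → ∃ z ∈ N, R l z := by
  refine club_diagL fun l => ?_
  by_cases h : ∃ z, R l z
  · obtain ⟨z, hz⟩ := h
    filter_upwards [club_mem z] with N hN _
    exact ⟨z, hN, hz⟩
  · exact Eventually.of_forall fun N h' => absurd h' h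

theorem ctbl_lists {B : Set Y} (hB : B.Countable) : {l : List Y | ∀ x ∈ l, x ∈ B}.Countable := by
  have : Countable B := hB.to_subtype
  refine (countable_range (List.map (Subtype.val : B → Y))).mono fun l hl => ?_
  lift l to List B using hl
  exact ⟨l, rfl⟩

private theorem gen_countable (F : List Y → Set Y) (hF : ∀ l, (F l).Countable) {A : Set Y}
    (hA : A.Countable) : ∃ N : Set Y, A ⊆ N ∧ N.Countable ∧ Clo F N := by
  let S : ℕ → Set Y := fun n => Nat.rec A (fun _ B => B ∪ ⋃ l ∈ {l : List Y | ∀ x ∈ l, x ∈ B}, F l) n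
  have hS0 : S 0 = A := rfl
  have hS1 : ∀ n, S (n + 1) = S n ∪ ⋃ l ∈ {l : List Y | ∀ x ∈ l, x ∈ S n}, F l := fun n => rfl
  have hc : ∀ n, (S n).Countable := by
    intro n
    induction n with
    | zero => exact hA
    | succ n ih =>
      rw [hS1]
      refine ih.union (Countable.biUnion ?_ fun l _ => hF l)
      exact ctbl_lists ih
  have hm : Monotone S := monotone_nat_of_le_succ fun n => by rw [hS1]; exact subset_union_left
  refine ⟨⋃ n, S n, hS0 ▸ subset_iUnion S 0, countable_iUnion hc, fun l hl => ?_⟩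
  have h1 : ∃ n, ∀ x ∈ l, x ∈ S n := by
    induction l with
    | nil => exact ⟨0, by simp⟩
    | cons a l ih =>
      obtain ⟨n, hn⟩ := ih fun x hx => hl x (List.mem_cons_of_mem _ hx)
      obtain ⟨m, hm'⟩ := mem_iUnion.1 (hl a List.mem_cons_self)
      refine ⟨max n m, fun x hx => ?_⟩
      rcases List.mem_cons.1 hx with rfl | hx
      · exact hm (le_max_right n m) hm'
      · exact hm (le_max_left n m) (hn x hx)
  obtain ⟨n, hn⟩ := h1
  refine subset_trans ?_ (subset_iUnion S (n + 1))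
  rw [hS1]
  refine subset_union_of_subset_right ?_ _
  exact subset_biUnion_of_mem (u := fun l => F l) (show l ∈ {l : List Y | ∀ x ∈ l, x ∈ S n} from hn)

theorem club_exists {φ : Set Y → Prop} (h : ∀ᶠ N in club Y, φ N) {A : Set Y} (hA : A.Countable) :
    ∃ N, A ⊆ N ∧ N.Countable ∧ φ N := by
  obtain ⟨F, hF, hF2⟩ := club_iff.1 h
  obtain ⟨N, h1, h2, h3⟩ := gen_countable F hF hA
  exact ⟨N, h1, h2, hF2 N h2 h3⟩

/-- passing from `Z` to a larger type -/
theorem club_preimage {Z : Type*} (f : Y → Z) {φ : Set Y → Prop} (hf : Function.Injective f)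
    (h : ∀ᶠ N in club Y, φ N) : ∀ᶠ M in club Z, φ (f ⁻¹' M) := by
  obtain ⟨F, hF, hF2⟩ := club_iff.1 h
  have key : ∀ᶠ M in club Z, ∀ l : List Z, (∀ x ∈ l, x ∈ M) → ∀ l' : List Y, l = l'.map f → f '' (F l') ⊆ M := by
    refine club_diagL fun l => ?_
    by_cases hl : ∃ l' : List Y, l = l'.map f
    · obtain ⟨l', rfl⟩ := hl
      filter_upwards [club_sub ((hF l').image f)] with M hM l'' h''
      have : l' = l'' := List.map_injective_iff.2 hf h''
      exact this ▸ hM
    · exact Eventually.of_forall fun M l' h' => absurd ⟨l', h'⟩ hl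
  filter_upwards [key, club_ctbl] with M hM hMc
  refine hF2 _ (hMc.preimage hf) fun l hl => ?_
  have h1 := hM (l.map f) (by
    intro x hx
    obtain ⟨y, hy, rfl⟩ := List.mem_map.1 hx
    exact hl y hy) l rfl
  exact image_subset_iff.1 h1

end Pool.MP_d8f801_lc.SC
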