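import Mathlib

/-!
# SC/K: the setting (measurable cardinal, coding) and the club filter

`X` is a wellordered type of size `2 ^ κ`; `w1 < kk` are the elements of `X` with initial segments of type `ω₁`
and `κ`; `U` is a normal ultrafilter on `κ`; `ev : X → X → X` codes all functions from `κ` to `X`.
-/

set_option autoImplicit false

universe u

namespace Pool.MP_d8f801_lc.SC

open Cardinal Set Filter

/-- The setting. -/
class Stg (X : Type u) extends LinearOrder X, OrderBot X where
  wfl : WellFounded ((· < ·) : X → X → Prop)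
  /-- `ω₁` -/
  w1 : X
  /-- `κ` -/
  kk : X
  /-- evaluation: `ev ξ ν` is the value at `ν` of the function with code `ξ` -/
  ev : X → X → X
  /-- the normal ultrafilter -/
  U : Ultrafilter X
  w1_lt : w1 < kk
  w1_unc : ¬ (Set.Iio w1).Countable
  w1_min : ∀ x : X, x < w1 → (Set.Iio x).Countable
  strong : (#(Set.Iio kk)).IsStrongLimit
  reg : (#(Set.Iio kk)).IsRegular
  kk_min : ∀ x : X, x < kk → #(Set.Iio x) < #(Set.Iio kk)
  card_X : #X = 2 ^ #(Set.Iio kk)
  ev_surj : ∀ f : X → X, ∃ ξ : X, ∀ ν : X, ν < kk → ev ξ ν = f ν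
  U_kk : ∀ᶠ ν in (U : Filter X), ν < kk
  U_tail : ∀ x : X, x < kk → ∀ᶠ ν in (U : Filter X), x < ν
  /-- normality -/
  U_normal : ∀ P : X → X → Prop, (∀ i : X, i < kk → ∀ᶠ ν in (U : Filter X), P i ν) →
    ∀ᶠ ν in (U : Filter X), ∀ i : X, i < ν → P i ν

export Stg (w1 kk ev)

/-- the normal ultrafilter as a filter -/
abbrev Uf (X : Type u) [Stg X] : Filter X := ((Stg.U : Ultrafilter X) : Filter X)

instance {X : Type u} [Stg X] : WellFoundedLT X := ⟨Stg.wfl⟩

/-- sets of size less than `κ` -/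
def Sm (X : Type u) [Stg X] {α : Type u} (A : Set α) : Prop := #A < #(Set.Iio (kk : X))

/-! ### The club filter on the countable subsets of a type -/

/-- `N` is closed under `F` -/
def Clo {Y : Type*} (F : List Y → Set Y) (N : Set Y) : Prop :=
  ∀ l : List Y, (∀ x ∈ l, x ∈ N) → F l ⊆ N

/-- the club filter: `s` belongs to it if for some countable-valued `F` all countable sets closed
under `F` belong to `s` -/
def club (Y : Type*) : Filter (Set Y) where
  sets := {s | ∃ F : List Y → Set Y, (∀ l, (F l).Countable) ∧ ∀ N : Set Y, N.Countable → Clo F N → N ∈ s}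
  univ_sets := ⟨fun _ => ∅, fun _ => countable_empty, fun _ _ _ => mem_univ _⟩
  sets_of_superset := by
    rintro s t ⟨F, h1, h2⟩ hst
    exact ⟨F, h1, fun N hN hc => hst (h2 N hN hc)⟩
  inter_sets := by
    rintro s t ⟨F, h1, h2⟩ ⟨G, h3, h4⟩
    refine ⟨fun l => F l ∪ G l, fun l => (h1 l).union (h3 l), fun N hN hc => ⟨h2 N hN fun l hl => ?_,
      h4 N hN fun l hl => ?_⟩⟩
    · exact subset_union_left.trans (hc l hl)
    · exact subset_union_right.trans (hc l hl)

variable {X : Type u} [Stg X]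

/-! ### Indiscernibles -/

/-- `N[γ]`: the values at `γ` of the functions coded in `N` -/
def nx (N : Set X) (γ : X) : Set X := {x | ∃ ξ ∈ N, ev ξ γ = x}

/-- `γ` is indiscernible over `N` -/
def Ind (N : Set X) (γ : X) : Prop :=
  γ < kk ∧ ∀ ξ ∈ N, (∀ᶠ ν in Uf X, ev ξ ν = ⊥) → ev ξ γ = ⊥

/-- the hull of `a` and `B`: iterated evaluation -/
def hul (a B : Set X) : Set X := {x | ∃ ζ ∈ a, ∃ l : List X, (∀ g ∈ l, g ∈ B) ∧ l.foldl ev ζ = x}

/-- strong indiscernibles over `a` -/
def Bst (a : Set X) : Set X :=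
  {ν | ν < kk ∧ ∀ ζ ∈ a, ∀ l : List X, (∀ g ∈ l, g < ν) →
    (∀ᶠ μ in Uf X, ev (l.foldl ev ζ) μ = ⊥) → ev (l.foldl ev ζ) ν = ⊥}

open Classical in
/-- the supremum of the first `ω₁` strong indiscernibles over `a` (`⊥` if it does not exist) -/
noncomputable def lam (a : Set X) : X :=
  if h : {y : X | ¬ (Bst a ∩ Iio y).Countable}.Nonempty then Stg.wfl.min _ h else ⊥

/-- the region of `a` -/
noncomputable def Zr (a : Set X) : Set X := hul a (Iio (lam a))

open Classical in
/-- the least element which does not belong to `a` (`⊥` if it does not exist) -/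
noncomputable def dl (a : Set X) : X :=
  if h : {i : X | i ∉ a}.Nonempty then Stg.wfl.min _ h else ⊥

/-- `a ∩ ω₁` is an initial segment -/
def Tr1 (a : Set X) : Prop := ∀ i ∈ a, i < (w1 : X) → i < dl a

end Pool.MP_d8f801_lc.SC
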