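import Pool.Agent.Lib.MP_d8f801_lc.SC.K.Nx

/-!
# SC/K: hulls and regions (modules K-Hul, K-Lam)
-/

set_option autoImplicit false

universe u

namespace Pool.MP_d8f801_lc.SC

open Cardinal Set Filter

variable {X : Type u} [Stg X]

theorem hul_mono {a a' B B' : Set X} (h : a ⊆ a') (h' : B ⊆ B') : hul a B ⊆ hul a' B' := by
  rintro x ⟨ζ, hζ, l, hl, rfl⟩
  exact ⟨ζ, h hζ, l, fun g hg => h' (hl g hg), rfl⟩

theorem sub_hul (a B : Set X) : a ⊆ hul a B := fun ζ hζ => ⟨ζ, hζ, [], by simp, rfl⟩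

theorem hul_ev {a B : Set X} {x g : X} (hx : x ∈ hul a B) (hg : g ∈ B) : ev x g ∈ hul a B := by
  obtain ⟨ζ, hζ, l, hl, rfl⟩ := hx
  refine ⟨ζ, hζ, l ++ [g], fun y hy => ?_, by rw [List.foldl_append]; rfl⟩
  rcases List.mem_append.1 hy with hy | hy
  · exact hl y hy
  · rw [List.mem_singleton.1 hy]; exact hg

theorem hul_hul {a B : Set X} : hul (hul a B) B ⊆ hul a B := by
  rintro x ⟨ζ, hζ, l, hl, rfl⟩
  induction l generalizing ζ with
  | nil => exact hζ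
  | cons g l ih =>
    exact ih (ev ζ g) (hul_ev hζ (hl g List.mem_cons_self)) fun y hy => hl y (List.mem_cons_of_mem _ hy)

/-- a set closed under evaluation contains the hull -/
theorem hul_sub {a B N : Set X} (ha : a ⊆ N) (hB : B ⊆ N) (hN : ∀ x ∈ N, ∀ g ∈ N, ev x g ∈ N) :
    hul a B ⊆ N := by
  rintro x ⟨ζ, hζ, l, hl, rfl⟩
  have h1 : ζ ∈ N := ha hζ
  clear hζ
  induction l generalizing ζ with
  | nil => exact h1
  | cons g l ih =>
    exact ih (ev ζ g) (fun y hy => hl y (List.mem_cons_of_mem _ hy))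
      (hN _ h1 _ (hB (hl g List.mem_cons_self)))

theorem nx_sub_hul {a B N : Set X} {γ : X} (h : N ⊆ hul a B) (hγ : γ ∈ B) : nx N γ ⊆ hul a B := by
  rintro x ⟨ξ, hξ, rfl⟩
  exact hul_ev (h hξ) hγ

end Pool.MP_d8f801_lc.SC
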