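import Pool.Agent.Lib.MP_d8f801_lc.SC.K.Club
import Pool.Agent.Lib.MP_d8f801_lc.SC.K.Small

/-!
# SC/K: Łoś for indiscernibles, the lift of the club filter (module K-Los)

* `los_fix`: `⊥ ≠ w1` (`Iio w1` is not countable). For every `l` choose (`Stg.ev_surj`) a code `a l` of the function
  `ν ↦ if Q l ν then ⊥ else w1` and a code `b l` of `ν ↦ if Q l ν then w1 else ⊥`. If `N` is closed under
  `a`, `b` (`club_fnL`) and `Ind N γ`, then: if `Q l` holds a.e. then `ev (a l) ν = ⊥` a.e. (`uf_kk`), so `ev (a l) γ = ⊥`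
  and `Q l γ` (`γ < kk`); if not then `¬ Q l ν` holds a.e. (`uf_not`) and in the same way `¬ Q l γ`.
* `los`, ..., `los3` are special cases (proved).
* `nx_lift`: from `club_iff` get `F`. For every list `l` and every `k : ℕ` let `f k ν` be an enumeration of `F (l.map (ev · ν))`
  (if this set is empty put `⊥`... use the codes only if it is not empty): to be precise, `F' l` is the set of codes `c l k` of
  `ν ↦ e (F (l.map (ev · ν))) k`, where `e A k` is the `k`-th element of an enumeration of the countable set `A` if it is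
  nonempty and `ev (l.headD ⊥) ν` otherwise (or treat the case that `F ..` is empty by first replacing `F l` by `F l ∪ {⊥}`).
  If `N` is closed under `F'` then `nx N γ` is closed under `F`: a list in `nx N γ` is `l.map (ev · γ)` for a list `l` in `N`
  (choose codes), and `x ∈ F (l.map (ev · γ))` is `ev (c l k) γ` for some `k`. `nx N γ` is countable (image of `N`).
* `nx_sub`: codes of constant functions (`club_fn`) and of the identity (`club_mem`).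
-/

set_option autoImplicit false

universe u

namespace Pool.MP_d8f801_lc.SC

open Cardinal Set Filter

variable {X : Type u} [Stg X]

private theorem los_bot_ne : (w1 : X) ≠ ⊥ := by
  intro h
  apply Stg.w1_unc (X := X)
  rw [h, show Iio (⊥ : X) = ∅ from Iio_bot]
  exact countable_empty

theorem los_fix (Q : List X → X → Prop) : ∀ᶠ N in club X, ∀ γ, Ind N γ → ∀ l : List X, (∀ x ∈ l, x ∈ N) →
    (Q l γ ↔ ∀ᶠ ν in Uf X, Q l ν) := by
  classical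
  choose a ha using fun l : List X => Stg.ev_surj (X := X) (fun ν => if Q l ν then ⊥ else w1)
  choose b hb using fun l : List X => Stg.ev_surj (X := X) (fun ν => if Q l ν then w1 else ⊥)
  filter_upwards [club_fnL a, club_fnL b] with N h1 h2 γ hγ l hl
  constructor
  · intro hQ
    by_contra hcon
    have h3 := uf_not hcon
    have h4 : ∀ᶠ ν in Uf X, ev (b l) ν = ⊥ := by
      filter_upwards [h3, uf_kk (X := X)] with ν hν hk
      rw [hb l ν hk, if_neg hν]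
    have h5 := hγ.2 (b l) (h2 l hl) h4
    rw [hb l γ hγ.1, if_pos hQ] at h5
    exact los_bot_ne h5
  · intro hQ
    by_contra hcon
    have h4 : ∀ᶠ ν in Uf X, ev (a l) ν = ⊥ := by
      filter_upwards [hQ, uf_kk (X := X)] with ν hν hk
      rw [ha l ν hk, if_pos hν]
    have h5 := hγ.2 (a l) (h1 l hl) h4
    rw [ha l γ hγ.1, if_neg hcon] at h5
    exact los_bot_ne h5

theorem los (R : X → List X → Prop) : ∀ᶠ N in club X, ∀ γ, Ind N γ → ∀ l : List X, (∀ x ∈ l, x ∈ N) →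
    (R γ (l.map fun ξ => ev ξ γ) ↔ ∀ᶠ ν in Uf X, R ν (l.map fun ξ => ev ξ ν)) :=
  los_fix fun l ν => R ν (l.map fun ξ => ev ξ ν)

theorem los_fix1 (Q : X → X → Prop) : ∀ᶠ N in club X, ∀ γ, Ind N γ → ∀ ξ ∈ N, (Q ξ γ ↔ ∀ᶠ ν in Uf X, Q ξ ν) := by
  filter_upwards [los_fix fun l ν => Q (l.getD 0 ⊥) ν] with N hN γ hγ ξ hξ
  exact hN γ hγ [ξ] (by simpa using hξ)

theorem los_fix2 (Q : X → X → X → Prop) : ∀ᶠ N in club X, ∀ γ, Ind N γ → ∀ ξ ∈ N, ∀ η ∈ N,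
    (Q ξ η γ ↔ ∀ᶠ ν in Uf X, Q ξ η ν) := by
  filter_upwards [los_fix fun l ν => Q (l.getD 0 ⊥) (l.getD 1 ⊥) ν] with N hN γ hγ ξ hξ η hη
  exact hN γ hγ [ξ, η] (by simp [hξ, hη])

theorem los_fix3 (Q : X → X → X → X → Prop) : ∀ᶠ N in club X, ∀ γ, Ind N γ → ∀ ξ ∈ N, ∀ η ∈ N, ∀ ζ ∈ N,
    (Q ξ η ζ γ ↔ ∀ᶠ ν in Uf X, Q ξ η ζ ν) := by
  filter_upwards [los_fix fun l ν => Q (l.getD 0 ⊥) (l.getD 1 ⊥) (l.getD 2 ⊥) ν] with N hN γ hγ ξ hξ η hη ζ hζ
  exact hN γ hγ [ξ, η, ζ] (by simp [hξ, hη, hζ])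

theorem los_fix4 (Q : X → X → X → X → X → Prop) : ∀ᶠ N in club X, ∀ γ, Ind N γ → ∀ ξ ∈ N, ∀ η ∈ N, ∀ ζ ∈ N,
    ∀ θ ∈ N, (Q ξ η ζ θ γ ↔ ∀ᶠ ν in Uf X, Q ξ η ζ θ ν) := by
  filter_upwards [los_fix fun l ν => Q (l.getD 0 ⊥) (l.getD 1 ⊥) (l.getD 2 ⊥) (l.getD 3 ⊥) ν] with
    N hN γ hγ ξ hξ η hη ζ hζ θ hθ
  exact hN γ hγ [ξ, η, ζ, θ] (by simp [hξ, hη, hζ, hθ])

theorem los1 (R : X → X → Prop) : ∀ᶠ N in club X, ∀ γ, Ind N γ → ∀ ξ ∈ N,
    (R γ (ev ξ γ) ↔ ∀ᶠ ν in Uf X, R ν (ev ξ ν)) :=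
  los_fix1 fun ξ ν => R ν (ev ξ ν)

theorem los2 (R : X → X → X → Prop) : ∀ᶠ N in club X, ∀ γ, Ind N γ → ∀ ξ ∈ N, ∀ η ∈ N,
    (R γ (ev ξ γ) (ev η γ) ↔ ∀ᶠ ν in Uf X, R ν (ev ξ ν) (ev η ν)) :=
  los_fix2 fun ξ η ν => R ν (ev ξ ν) (ev η ν)

theorem los3 (R : X → X → X → X → Prop) : ∀ᶠ N in club X, ∀ γ, Ind N γ → ∀ ξ ∈ N, ∀ η ∈ N, ∀ ζ ∈ N,
    (R γ (ev ξ γ) (ev η γ) (ev ζ γ) ↔ ∀ᶠ ν in Uf X, R ν (ev ξ ν) (ev η ν) (ev ζ ν)) :=
  los_fix3 fun ξ η ζ ν => R ν (ev ξ ν) (ev η ν) (ev ζ ν)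

theorem nx_ctbl {N : Set X} (h : N.Countable) (γ : X) : (nx N γ).Countable :=
  h.image (fun ξ => ev ξ γ)

private theorem los_lift_list {N : Set X} {γ : X} (l' : List X) (h : ∀ x ∈ l', x ∈ nx N γ) :
    ∃ l : List X, (∀ x ∈ l, x ∈ N) ∧ l.map (fun ξ => ev ξ γ) = l' := by
  induction l' with
  | nil => exact ⟨[], by simp, rfl⟩
  | cons a t ih =>
    obtain ⟨l, hl, hl2⟩ := ih fun x hx => h x (List.mem_cons_of_mem _ hx)
    obtain ⟨ξ, hξ, hξ2⟩ := h a List.mem_cons_self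
    refine ⟨ξ :: l, fun x hx => ?_, ?_⟩
    · rcases List.mem_cons.1 hx with rfl | hx
      · exact hξ
      · exact hl x hx
    · rw [List.map_cons, hl2, hξ2]

theorem nx_lift {φ : Set X → Prop} (h : ∀ᶠ N in club X, φ N) :
    ∀ᶠ N in club X, ∀ γ : X, γ < kk → φ (nx N γ) := by
  obtain ⟨F, hF, hF2⟩ := club_iff.1 h
  have hG : ∀ l : List X, ∃ f : ℕ → X, F l ∪ {⊥} = range f := fun l =>
    ((hF l).union (countable_singleton _)).exists_eq_range ⟨⊥, Or.inr rfl⟩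
  choose e he using hG
  choose c hc using fun (l : List X) (k : ℕ) => Stg.ev_surj (X := X)
    (fun ν => e (l.map fun ξ => ev ξ ν) k)
  filter_upwards [club_of (fun l : List X => range (c l)) fun l => countable_range _] with N hN γ hγ
  refine hF2 _ (nx_ctbl hN.1 γ) fun l' hl' x hx => ?_
  obtain ⟨l, hl, rfl⟩ := los_lift_list l' hl'
  have h1 : x ∈ range (e (l.map fun ξ => ev ξ γ)) := by
    rw [← he]; exact Or.inl hx
  obtain ⟨k, rfl⟩ := h1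
  exact ⟨c l k, hN.2 l hl ⟨k, rfl⟩, hc l k γ hγ⟩

theorem nx_sub : ∀ᶠ N in club X, ∀ γ : X, γ < kk → N ⊆ nx N γ ∧ γ ∈ nx N γ := by
  choose c hc using fun x : X => Stg.ev_surj (X := X) (fun _ => x)
  obtain ⟨i, hi⟩ := Stg.ev_surj (X := X) (fun ν => ν)
  filter_upwards [club_fn c, club_mem i] with N h1 h2 γ hγ
  exact ⟨fun x hx => ⟨c x, h1 x hx, hc x γ hγ⟩, ⟨i, h2, hi γ hγ⟩⟩

end Pool.MP_d8f801_lc.SC
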